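import Pool.Agent.helper91.ADV.SpecM

/-!
# Row adv:MQT
-/

set_option autoImplicit false

namespace Pool.Agent.ADV

open Finset Pool.Agent.helper38.Neg Pool.Agent.helper55.NT Pool.Agent.LNB

theorem MQT (h1 : MQU_stmt) (h2 : GRA_stmt) : MQT_stmt := by
  intro u r γ hγ
  tfae_have 1 → 2 := fun ⟨c, hc⟩ A hA hm => h1 u r γ c hc hγ A hA hm
  tfae_have 2 → 3 := by
    intro h A hA hm
    obtain ⟨k, hk⟩ := h A (NG.inQuasi_of_inPPoly hA) fun n => LN.monoIn_of_monotone (u n) (hm n)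
    refine ⟨k, fun n D hD => ?_⟩
    obtain ⟨s, hs, C, o, hF, hg⟩ := hk n D hD
    exact ⟨s, hs, C, o, LN.TFP n s (u n) (r n) C hF, hg⟩
  tfae_have 3 → 1 := by
    intro h
    obtain ⟨A, hA, hm, hG⟩ := h2 u
    obtain ⟨k, hk⟩ := h A hA hm
    obtain ⟨c, hc⟩ := hG (fun n => 2 ^ r n) γ k (k + 1) (by omega) (by
      intro n D hD
      obtain ⟨s, hs, C, o, hF, hg⟩ := hk n D hD
      refine ⟨s, hs.trans (Nat.pow_le_pow_right (by norm_num) ?_), C, o, hF, hg⟩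
      exact Nat.mul_le_mul_left _ (lg_pow_le n (by omega)))
    refine ⟨c + 20 * (k + 1), fun n => (hc n).trans ?_⟩
    have h3 : (1 : ℝ) ≤ lg n := by exact_mod_cast lg_pos n
    have h4 : (lg n : ℝ) ^ (20 * (k + 1)) ≤ (lg n : ℝ) ^ (c + 20 * (k + 1)) :=
      pow_le_pow_right₀ h3 (by omega)
    have h5 : (c : ℝ) ≤ ((c + 20 * (k + 1) : ℕ) : ℝ) := by exact_mod_cast Nat.le_add_right _ _
    have h6 : (c : ℝ) * (lg n : ℝ) ^ (20 * (k + 1)) ≤
        ((c + 20 * (k + 1) : ℕ) : ℝ) * (lg n : ℝ) ^ (c + 20 * (k + 1)) :=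
      mul_le_mul h5 h4 (by positivity) (Nat.cast_nonneg _)
    have h7 : (((2 ^ r n : ℕ)) : ℝ) = 2 ^ r n := by push_cast; rfl
    rw [h7]
    exact mul_le_mul_of_nonneg_right h6 (by positivity)
  tfae_finish

end Pool.Agent.ADV
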