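import Pool.Agent.helper91.ADV.SpecM

/-!
# Row adv:MQU
-/

set_option autoImplicit false

namespace Pool.Agent.ADV

open Finset Pool.Agent.helper38.Neg Pool.Agent.helper55.NT Pool.Agent.LNB

theorem MQU_size {c k n s b : ℕ} (hb : b = 6 * (c * lg n ^ c) + 1) (hs : s ≤ 2 ^ (k * lg n ^ k)) :
    18 * b * (s + 5 * n + 7) * (n + n + 2) ^ (b + 2) + n + 1 ≤
      2 ^ ((24 * c + k + 24) * lg n ^ (24 * c + k + 24)) := by
  subst hb
  obtain ⟨K, hK⟩ : ∃ K, K = 24 * c + k + 24 := ⟨_, rfl⟩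
  obtain ⟨L, hL⟩ : ∃ L, L = lg n := ⟨_, rfl⟩
  have hL1 : 1 ≤ L := by rw [hL]; exact lg_pos n
  have hn2 : n + 2 < 2 ^ (L + 1) := by rw [hL]; exact lt_two_pow_lg n
  rw [← hL] at hs
  rw [← hK, ← hL]
  have c1 : 18 ≤ 2 ^ 5 := by norm_num
  have c2 : 6 * (c * L ^ c) + 1 ≤ 2 ^ (6 * (c * L ^ c) + 1) := Nat.lt_two_pow_self.le
  have c3 : s + 5 * n + 7 ≤ 2 ^ (k * L ^ k + (L + 4) + 1) := by
    refine le_trans ?_ (two_pow_add _ _)
    have e : 2 ^ (L + 4) = 8 * 2 ^ (L + 1) := by ring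
    rw [e]
    omega
  have c4 : (n + n + 2) ^ (6 * (c * L ^ c) + 1 + 2) ≤ 2 ^ ((L + 2) * (6 * (c * L ^ c) + 1 + 2)) := by
    rw [pow_mul]
    refine Nat.pow_le_pow_left ?_ _
    have e : 2 ^ (L + 2) = 2 * 2 ^ (L + 1) := by ring
    rw [e]
    omega
  have c5 : n + 1 ≤ 2 ^ (L + 1) := by omega
  have c6 : 18 * (6 * (c * L ^ c) + 1) * (s + 5 * n + 7) * (n + n + 2) ^ (6 * (c * L ^ c) + 1 + 2) ≤
      2 ^ (5 + (6 * (c * L ^ c) + 1) + (k * L ^ k + (L + 4) + 1) + (L + 2) * (6 * (c * L ^ c) + 1 + 2)) :=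
    (Nat.mul_le_mul (Nat.mul_le_mul (Nat.mul_le_mul c1 c2) c3) c4).trans_eq
      (by rw [← pow_add, ← pow_add, ← pow_add])
  have c7 : 18 * (6 * (c * L ^ c) + 1) * (s + 5 * n + 7) * (n + n + 2) ^ (6 * (c * L ^ c) + 1 + 2) + n + 1 ≤
      2 ^ ((5 + (6 * (c * L ^ c) + 1) + (k * L ^ k + (L + 4) + 1) + (L + 2) * (6 * (c * L ^ c) + 1 + 2)) +
        (L + 1) + 1) := by
    refine le_trans ?_ (two_pow_add _ _)
    omega
  refine c7.trans (Nat.pow_le_pow_right (by norm_num) ?_)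
  have a1 : L ^ c ≤ L ^ K := Nat.pow_le_pow_right hL1 (by omega)
  have a2 : L ^ k ≤ L ^ K := Nat.pow_le_pow_right hL1 (by omega)
  have a3 : L ^ (c + 1) ≤ L ^ K := Nat.pow_le_pow_right hL1 (by omega)
  have a4 : L ≤ L ^ K := Nat.le_self_pow (by omega) _
  have a5 : 1 ≤ L ^ K := Nat.one_le_pow _ _ hL1
  have e1 : (5 + (6 * (c * L ^ c) + 1) + (k * L ^ k + (L + 4) + 1) +
      (L + 2) * (6 * (c * L ^ c) + 1 + 2)) + (L + 1) + 1
      = 18 * (c * L ^ c) + k * L ^ k + 6 * (c * L ^ (c + 1)) + 5 * L + 19 := by ring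
  have e2 : K * L ^ K = 24 * (c * L ^ K) + k * L ^ K + 24 * L ^ K := by
    have : K * L ^ K = (24 * c + k + 24) * L ^ K := by rw [← hK]
    rw [this]; ring
  rw [e1, e2]
  have d1 : c * L ^ c ≤ c * L ^ K := Nat.mul_le_mul_left _ a1
  have d2 : k * L ^ k ≤ k * L ^ K := Nat.mul_le_mul_left _ a2
  have d3 : c * L ^ (c + 1) ≤ c * L ^ K := Nat.mul_le_mul_left _ a3
  omega

theorem MQU_gamma {g Q : ℝ} {m b R : ℕ} (hR : 1 ≤ R) (hQ : 0 ≤ Q) (hb : (b : ℝ) = 6 * Q + 1)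
    (h1 : g * m ≤ Q * R) (h2 : g ≤ 1 / 2) :
    g ≤ 1 / (4 * ((m / (b * R) : ℕ) : ℝ) + 2) := by
  obtain ⟨x, hx⟩ : ∃ x, x = m / (b * R) := ⟨_, rfl⟩
  rw [← hx]
  have hx0 : (0 : ℝ) ≤ x := Nat.cast_nonneg x
  rw [le_div_iff₀ (by positivity)]
  rcases Nat.eq_zero_or_pos x with h0 | h0
  · rw [h0]
    push_cast
    linarith
  rcases le_or_gt g 0 with hg | hg
  · nlinarith
  have h3 : x * (b * R) ≤ m := by rw [hx]; exact Nat.div_mul_le_self _ _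
  have h4 : (x : ℝ) * (b * R) ≤ m := by exact_mod_cast h3
  have h5 : g * (x * (b * R)) ≤ Q * R := (mul_le_mul_of_nonneg_left h4 hg.le).trans h1
  have hR0 : (0 : ℝ) < R := by exact_mod_cast hR
  have h6 : g * x * b ≤ Q := by
    have : (g * x * b) * R ≤ Q * R := by linarith
    exact le_of_mul_le_mul_right this hR0
  have h7 : (1 : ℝ) ≤ x := by exact_mod_cast h0
  have hb0 : (0 : ℝ) < b := by rw [hb]; linarith
  have h8 : 6 * (g * x) ≤ 1 := by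
    have : 6 * (g * x) * b ≤ 1 * b := by linarith
    exact le_of_mul_le_mul_right this hb0
  nlinarith

theorem MQU (h1 : MUP_stmt) : MQU_stmt := by
  intro u r γ c hγ hγ2 A hA hm
  obtain ⟨k, hk⟩ := hA
  refine ⟨24 * c + k + 24, fun n D hD => ?_⟩
  obtain ⟨s, hs, C, o, hC⟩ := hk n
  have hA' : A n = fun x => C.val x o = true := funext fun x => propext (hC x).symm
  have hm' := hm n
  rw [hA'] at hm'
  obtain ⟨b, hb⟩ : ∃ b, b = 6 * (c * lg n ^ c) + 1 := ⟨_, rfl⟩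
  obtain ⟨s', hs', C', o', b1, b2⟩ := h1 n s (u n) b (r n) C o hm' (by omega) D hD
  refine ⟨s', hs'.trans (MQU_size hb hs), C', o', b1, ?_⟩
  rw [hA']
  refine le_trans ?_ b2
  have h3 := hγ n
  have h4 : γ n * ((min (u n) n : ℕ) : ℝ) ≤ ((c * lg n ^ c : ℕ) : ℝ) * ((2 ^ r n : ℕ) : ℝ) := by
    push_cast at h3 ⊢
    linarith
  exact MQU_gamma (Nat.one_le_two_pow) (Nat.cast_nonneg _) (by rw [hb]; push_cast; ring) h4 (hγ2 n)

end Pool.Agent.ADV
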